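import Pool.Agent.P8H39.TI.Stm3

/-!
# Project TI (MP_d97b4e_co): packages SYM and CNT
-/

set_option autoImplicit false

namespace Pool.Agent.P8H57.TI

open Finset Pool.Agent.P8H39.TI

/-- SYM -/
theorem t_SYM : S_SYM := by
  classical
  intro n k r p T T' hT
  let e : {x // x ∈ T} ≃ {x // x ∈ T'} := Finset.equivOfCardEq hT
  let σ : Equiv.Perm (Fin n) := e.extendSubtype
  have hσ : ∀ x, x ∈ T → σ x ∈ T' := fun x hx => e.extendSubtype_mem x hx
  have hσ' : ∀ x, x ∉ T → σ x ∉ T' := fun x hx => e.extendSubtype_not_mem x hx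
  have hiff : ∀ x, σ x ∈ T' ↔ x ∈ T := by
    intro x
    constructor
    · intro h
      by_contra hx
      exact hσ' x hx h
    · exact hσ x
  have hTmap : T' = T.map σ.toEmbedding := by
    ext x
    rw [Finset.mem_map_equiv, ← hiff, Equiv.apply_symm_apply]
  have hdeg : ∀ R : Finset (Fin n),
      deg (star k T) R = deg (star k T') (R.map σ.toEmbedding) := by
    intro R
    unfold deg
    refine Finset.card_equiv (Equiv.finsetCongr σ) ?_
    intro A
    unfold Pool.Agent.P8H39.TI.star Pool.Agent.P8H39.TI.slice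
    simp only [Finset.mem_filter, Finset.mem_powersetCard, Finset.subset_univ, true_and,
      Equiv.finsetCongr_apply, Finset.card_map, hTmap, Finset.map_subset_map]
  unfold ell
  refine Finset.sum_equiv (Equiv.finsetCongr σ) ?_ ?_
  · intro R
    unfold Pool.Agent.P8H39.TI.slice
    simp [Finset.mem_powersetCard]
  · intro R _
    rw [hdeg R]
    rfl

/-- the number of `k`-sets containing a given set -/
theorem card_sup (n k : ℕ) (W : Finset (Fin n)) (hW : W.card ≤ k) :
    ((slice n k).filter (fun E => W ⊆ E)).card ≤ (n - W.card).choose (k - W.card) := by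
  classical
  have h1 : (powersetCard (k - W.card) (univ \ W)).card = (n - W.card).choose (k - W.card) := by
    rw [Finset.card_powersetCard, Finset.card_sdiff_of_subset (Finset.subset_univ W),
      Finset.card_univ, Fintype.card_fin]
  rw [← h1]
  refine Finset.card_le_card_of_injOn (fun E => E \ W) ?_ ?_
  · intro E hE
    simp only [Finset.coe_filter, Set.mem_ofPred_eq, Finset.mem_powersetCard] at hE
    rw [Finset.mem_coe, Finset.mem_powersetCard]
    refine ⟨?_, ?_⟩
    · exact Finset.sdiff_subset_sdiff (Finset.subset_univ E) (Finset.Subset.refl W)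
    · rw [Finset.card_sdiff_of_subset hE.2, hE.1.2]
  · intro E hE E' hE' h
    simp only [Finset.coe_filter, Set.mem_ofPred_eq] at hE hE'
    have h2 : (E \ W) ∪ W = (E' \ W) ∪ W := by
      rw [show E \ W = E' \ W from h]
    rwa [Finset.sdiff_union_of_subset hE.2, Finset.sdiff_union_of_subset hE'.2] at h2

/-- CNT -/
theorem t_CNT : S_CNT := by
  classical
  intro n k t A B T htk hA hB hT hTt
  have hTA : T ⊆ A := by rw [hT]; exact Finset.inter_subset_left
  have hTB : T ⊆ B := by rw [hT]; exact Finset.inter_subset_right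
  have hcA : (A \ T).card = k - t := by rw [Finset.card_sdiff_of_subset hTA, hA, hTt]
  have hcB : (B \ T).card = k - t := by rw [Finset.card_sdiff_of_subset hTB, hB, hTt]
  -- the covering
  have hcov : (slice n k).filter (fun E => ¬ T ⊆ E ∧ t ≤ (E ∩ A).card ∧ t ≤ (E ∩ B).card) ⊆
      (Icc 1 (k - t)).biUnion (fun j =>
        ((powersetCard j T ×ˢ (powersetCard j (A \ T) ×ˢ powersetCard j (B \ T)))).biUnion
          (fun q => (slice n k).filter (fun E => (T \ q.1) ∪ (q.2.1 ∪ q.2.2) ⊆ E))) := by
    intro E hE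
    rw [Finset.mem_filter] at hE
    obtain ⟨hEs, hTE, hEA, hEB⟩ := hE
    have hj0 : 1 ≤ (T \ E).card := by
      rw [Nat.one_le_iff_ne_zero, Ne, Finset.card_eq_zero, Finset.sdiff_eq_empty_iff_subset]
      exact hTE
    have hsplit : ∀ C : Finset (Fin n), T ⊆ C →
        (E ∩ C).card = (E ∩ (C \ T)).card + (E ∩ T).card := by
      intro C hC
      rw [← Finset.card_union_of_disjoint]
      · congr 1
        ext x
        simp only [Finset.mem_inter, Finset.mem_union, Finset.mem_sdiff]
        constructor
        · rintro ⟨h1, h2⟩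
          by_cases h3 : x ∈ T
          · exact Or.inr ⟨h1, h3⟩
          · exact Or.inl ⟨h1, h2, h3⟩
        · rintro (⟨h1, h2, -⟩ | ⟨h1, h2⟩)
          · exact ⟨h1, h2⟩
          · exact ⟨h1, hC h2⟩
      · rw [Finset.disjoint_left]
        intro x hx hx'
        simp only [Finset.mem_inter, Finset.mem_sdiff] at hx hx'
        exact hx.2.2 hx'.2
    have hTc : (E ∩ T).card + (T \ E).card = t := by
      rw [← hTt, Finset.inter_comm, Finset.card_inter_add_card_sdiff]
    have hXA : (T \ E).card ≤ (E ∩ (A \ T)).card := by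
      have := hsplit A hTA
      omega
    have hXB : (T \ E).card ≤ (E ∩ (B \ T)).card := by
      have := hsplit B hTB
      omega
    obtain ⟨X, hX, hXc⟩ := Finset.exists_subset_card_eq hXA
    obtain ⟨Y, hY, hYc⟩ := Finset.exists_subset_card_eq hXB
    have hjk : (T \ E).card ≤ k - t := by
      rw [← hcA]
      exact hXA.trans (Finset.card_le_card Finset.inter_subset_right)
    rw [Finset.mem_biUnion]
    refine ⟨(T \ E).card, Finset.mem_Icc.2 ⟨hj0, hjk⟩, ?_⟩
    rw [Finset.mem_biUnion]
    refine ⟨(T \ E, (X, Y)), ?_, ?_⟩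
    · rw [Finset.mem_product, Finset.mem_product, Finset.mem_powersetCard,
        Finset.mem_powersetCard, Finset.mem_powersetCard]
      exact ⟨⟨Finset.sdiff_subset, rfl⟩, ⟨hX.trans Finset.inter_subset_right, hXc⟩,
        ⟨hY.trans Finset.inter_subset_right, hYc⟩⟩
    · rw [Finset.mem_filter]
      refine ⟨hEs, ?_⟩
      refine Finset.union_subset ?_ (Finset.union_subset
        (hX.trans Finset.inter_subset_left) (hY.trans Finset.inter_subset_left))
      intro x hx
      rw [Finset.mem_sdiff] at hx
      by_contra hxE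
      exact hx.2 (Finset.mem_sdiff.2 ⟨hx.1, hxE⟩)
  refine (Finset.card_le_card hcov).trans (Finset.card_biUnion_le.trans ?_)
  refine Finset.sum_le_sum ?_
  intro j hj
  rw [Finset.mem_Icc] at hj
  refine Finset.card_biUnion_le.trans ?_
  have hb : ∀ q ∈ (powersetCard j T ×ˢ (powersetCard j (A \ T) ×ˢ powersetCard j (B \ T))),
      ((slice n k).filter (fun E => (T \ q.1) ∪ (q.2.1 ∪ q.2.2) ⊆ E)).card ≤
        (n - t - j).choose (k - t - j) := by
    intro q hq
    rw [Finset.mem_product, Finset.mem_product, Finset.mem_powersetCard,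
      Finset.mem_powersetCard, Finset.mem_powersetCard] at hq
    obtain ⟨⟨hJ, hJc⟩, ⟨hX, hXc⟩, ⟨hY, hYc⟩⟩ := hq
    have hjt : j ≤ t := by
      rw [← hJc, ← hTt]
      exact Finset.card_le_card hJ
    have hc : ((T \ q.1) ∪ (q.2.1 ∪ q.2.2)).card = t + j := by
      rw [Finset.card_union_of_disjoint, Finset.card_union_of_disjoint,
        Finset.card_sdiff_of_subset hJ, hJc, hXc, hYc, hTt]
      · omega
      · rw [Finset.disjoint_left]
        intro x hx hy
        have h1 := hX hx
        have h2 := hY hy
        rw [Finset.mem_sdiff] at h1 h2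
        apply h1.2
        rw [hT, Finset.mem_inter]
        exact ⟨h1.1, h2.1⟩
      · rw [Finset.disjoint_left]
        intro x hx hy
        rw [Finset.mem_sdiff] at hx
        rw [Finset.mem_union] at hy
        rcases hy with hy | hy
        · exact (Finset.mem_sdiff.1 (hX hy)).2 hx.1
        · exact (Finset.mem_sdiff.1 (hY hy)).2 hx.1
    have h := card_sup n k _ (show ((T \ q.1) ∪ (q.2.1 ∪ q.2.2)).card ≤ k by rw [hc]; omega)
    rw [hc] at h
    rw [Nat.sub_sub, Nat.sub_sub]
    exact h
  refine (Finset.sum_le_card_nsmul _ _ _ hb).trans (le_of_eq ?_)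
  rw [Finset.card_product, Finset.card_product, Finset.card_powersetCard,
    Finset.card_powersetCard, Finset.card_powersetCard, hcA, hcB, hTt, smul_eq_mul]
  ring

end Pool.Agent.P8H57.TI
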