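import Pool.Agent.P8H39.TI.Stm6

/-! Project TI (MP_d97b4e_co): package GOT. -/

set_option autoImplicit false

namespace Pool.Agent.P8H57.TI

open Finset Pool.Agent.P8H39.TI

theorem sum_erase {n : ℕ} (s : ℕ) (U : Finset (Fin n)) (g : Finset (Fin n) → ℝ)
    (hs : s ≤ U.card) :
    ∑ u ∈ U, ∑ S ∈ powersetCard s (U.erase u), g S =
      ((U.card : ℝ) - s) * ∑ S ∈ powersetCard s U, g S := by
  classical
  have h1 : ∀ u ∈ U, ∑ S ∈ powersetCard s (U.erase u), g S =
      ∑ S ∈ powersetCard s U, if u ∉ S then g S else 0 := by
    intro u _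
    rw [← Finset.sum_filter]
    refine Finset.sum_congr ?_ fun _ _ => rfl
    ext S
    rw [mem_filter, mem_powersetCard, mem_powersetCard, subset_erase]
    tauto
  rw [Finset.sum_congr rfl h1, Finset.sum_comm, Finset.mul_sum]
  refine Finset.sum_congr rfl fun S hS => ?_
  rw [mem_powersetCard] at hS
  rw [← Finset.sum_filter, Finset.sum_const, nsmul_eq_mul]
  have h2 : U.filter (fun u => u ∉ S) = U \ S := by
    ext u
    rw [mem_filter, mem_sdiff]
  rw [h2, card_sdiff_of_subset hS.1, hS.2, Nat.cast_sub hs]

theorem sum_large {n s m : ℕ} {X : Finset (Fin n)} {g : Finset (Fin n) → ℝ} (hsm : s ≤ m)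
    (h : ∀ U, U ⊆ X → U.card = m → ∑ S ∈ powersetCard s U, g S = 0) :
    ∀ i : ℕ, ∀ U, U ⊆ X → U.card = m + i → ∑ S ∈ powersetCard s U, g S = 0 := by
  intro i
  induction i with
  | zero =>
    intro U hU hc
    exact h U hU hc
  | succ i ih =>
    intro U hU hc
    have h1 := sum_erase s U g (by omega)
    have h2 : ∑ u ∈ U, ∑ S ∈ powersetCard s (U.erase u), g S = 0 := by
      refine Finset.sum_eq_zero fun u hu => ?_
      refine ih (U.erase u) ((erase_subset _ _).trans hU) ?_
      rw [card_erase_of_mem hu]
      omega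
    rw [h2] at h1
    have h3 : (0 : ℝ) < (U.card : ℝ) - s := by
      have h4 : s < U.card := by omega
      have h5 : (s : ℝ) < U.card := by exact_mod_cast h4
      linarith
    rcases mul_eq_zero.1 h1.symm with h4 | h4
    · exact absurd h4 h3.ne'
    · exact h4

/-- GOT -/
theorem t_GOT : S_GOT := by
  classical
  intro n s m X g hsm hX h S hS hSc
  have key : ∀ J : Finset (Fin n), ∀ U : Finset (Fin n), Disjoint J U → U ∪ J ⊆ X → m ≤ U.card →
      ∑ S ∈ (powersetCard s (U ∪ J)).filter (fun S => J ⊆ S), g S = 0 := by
    intro J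
    induction J using Finset.induction_on with
    | empty =>
      intro U _ hU hm
      have h1 : (powersetCard s (U ∪ ∅)).filter (fun S => ∅ ⊆ S) = powersetCard s U := by
        rw [union_empty]
        exact filter_true_of_mem fun _ _ => empty_subset _
      rw [h1]
      refine sum_large hsm h (U.card - m) U ?_ (by omega)
      rwa [union_empty] at hU
    | insert a J ha ih =>
      intro U hd hU hm
      rw [disjoint_insert_left] at hd
      obtain ⟨haU, hJU⟩ := hd
      have hUJ : insert a U ∪ J = U ∪ insert a J := by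
        rw [insert_union, union_insert]
      have e1 := ih (insert a U) (by
        rw [disjoint_insert_right]
        exact ⟨ha, hJU⟩) (by rwa [hUJ]) (by
        rw [card_insert_of_notMem haU]
        omega)
      have e2 := ih U hJU ((union_subset_union_right (subset_insert a J)).trans hU) hm
      rw [← Finset.sum_filter_add_sum_filter_not _ (fun S => a ∈ S)] at e1
      have f1 : ((powersetCard s (insert a U ∪ J)).filter (fun S => J ⊆ S)).filter
          (fun S => a ∈ S) =
          (powersetCard s (U ∪ insert a J)).filter (fun S => insert a J ⊆ S) := by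
        ext S
        rw [hUJ, mem_filter, mem_filter, mem_filter, insert_subset_iff]
        tauto
      have f2 : ((powersetCard s (insert a U ∪ J)).filter (fun S => J ⊆ S)).filter
          (fun S => ¬ a ∈ S) = (powersetCard s (U ∪ J)).filter (fun S => J ⊆ S) := by
        ext S
        rw [mem_filter, mem_filter, mem_filter, mem_powersetCard, mem_powersetCard, insert_union]
        constructor
        · rintro ⟨⟨⟨h1, h2⟩, h3⟩, h4⟩
          exact ⟨⟨(subset_insert_iff_of_notMem h4).1 h1, h2⟩, h3⟩
        · rintro ⟨⟨h1, h2⟩, h3⟩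
          refine ⟨⟨⟨h1.trans (subset_insert _ _), h2⟩, h3⟩, ?_⟩
          intro h4
          rcases mem_union.1 (h1 h4) with h5 | h5
          · exact haU h5
          · exact ha h5
      rw [f1, f2, e2, add_zero] at e1
      exact e1
  have hX' : (X \ S) ∪ S = X := sdiff_union_of_subset hS
  have h1 := key S (X \ S) disjoint_sdiff (by rw [hX']) (by
    rw [card_sdiff_of_subset hS, hSc]
    omega)
  rw [hX'] at h1
  have h2 : (powersetCard s X).filter (fun S' => S ⊆ S') = {S} := by
    ext S'
    rw [mem_filter, mem_powersetCard, mem_singleton]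
    constructor
    · rintro ⟨⟨h3, h4⟩, h5⟩
      exact (eq_of_subset_of_card_le h5 (by rw [h4, hSc])).symm
    · rintro rfl
      exact ⟨⟨hS, hSc⟩, subset_refl _⟩
  rw [h2, sum_singleton] at h1
  exact h1

end Pool.Agent.P8H57.TI
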